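import Pool.Agent.J4H34.DN.Stm

set_option autoImplicit false

/-! Project DN (helper34), part A: folded derivatives. -/

namespace Pool.Agent.J4H55.DN

open Polynomial Complex Filter Topology
open Pool.Agent.J4H34.DN (refl fold star S_A)

theorem fold_im (y : ℝ) (w : ℂ) : (fold y w).im ≤ y := by
  unfold fold Pool.Agent.J4H34.DN.refl
  split_ifs with h
  · show 2 * y - w.im ≤ y
    linarith
  · linarith

theorem norm_fold {y : ℝ} {z w : ℂ} (hz : y ≤ z.im) : ‖z - w‖ ≤ ‖z - fold y w‖ := by
  unfold fold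
  split_ifs with h
  · rw [← sq_le_sq₀ (norm_nonneg _) (norm_nonneg _), ← Complex.normSq_eq_norm_sq, ← Complex.normSq_eq_norm_sq,
      Complex.normSq_apply, Complex.normSq_apply]
    simp only [Pool.Agent.J4H34.DN.refl, Complex.sub_re, Complex.sub_im]
    nlinarith [mul_nonneg (sub_nonneg.2 hz) (sub_nonneg.2 h.le)]
  · exact le_rfl

theorem norm_fold_eq {y : ℝ} {z w : ℂ} (hz : z.im = y) : ‖z - fold y w‖ = ‖z - w‖ := by
  unfold fold
  split_ifs with h
  · rw [← sq_eq_sq₀ (norm_nonneg _) (norm_nonneg _), ← Complex.normSq_eq_norm_sq, ← Complex.normSq_eq_norm_sq,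
      Complex.normSq_apply, Complex.normSq_apply]
    simp only [Pool.Agent.J4H34.DN.refl, Complex.sub_re, Complex.sub_im]
    rw [hz]; ring
  · rfl

theorem eval_star (y : ℝ) (p : ℂ[X]) (z : ℂ) :
    (star y p).eval z = p.leadingCoeff * (p.roots.map (fun w => z - fold y w)).prod := by
  unfold Pool.Agent.J4H34.DN.star
  rw [eval_mul, eval_C, eval_multiset_prod, Multiset.map_map]
  congr 2
  apply Multiset.map_congr rfl
  intro w _
  simp

theorem eval_self (p : ℂ[X]) (z : ℂ) : p.eval z = p.leadingCoeff * (p.roots.map (fun w => z - w)).prod := by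
  conv_lhs => rw [(IsAlgClosed.splits p).eq_prod_roots]
  rw [eval_mul, eval_C, eval_multiset_prod, Multiset.map_map]
  congr 2
  apply Multiset.map_congr rfl
  intro w _
  simp

theorem prod_le {y : ℝ} {z : ℂ} (hz : y ≤ z.im) (m : Multiset ℂ) :
    ‖(m.map (fun w => z - w)).prod‖ ≤ ‖(m.map (fun w => z - fold y w)).prod‖ := by
  induction m using Multiset.induction_on with
  | empty => simp
  | cons a m ih =>
    rw [Multiset.map_cons, Multiset.map_cons, Multiset.prod_cons, Multiset.prod_cons, norm_mul, norm_mul]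
    exact mul_le_mul (norm_fold hz) ih (norm_nonneg _) (norm_nonneg _)

theorem prod_eq {y : ℝ} {z : ℂ} (hz : z.im = y) (m : Multiset ℂ) :
    ‖(m.map (fun w => z - fold y w)).prod‖ = ‖(m.map (fun w => z - w)).prod‖ := by
  induction m using Multiset.induction_on with
  | empty => simp
  | cons a m ih =>
    rw [Multiset.map_cons, Multiset.map_cons, Multiset.prod_cons, Multiset.prod_cons, norm_mul, norm_mul, ih, norm_fold_eq hz]

theorem star_ge {y : ℝ} {z : ℂ} (hz : y ≤ z.im) (p : ℂ[X]) : ‖p.eval z‖ ≤ ‖(star y p).eval z‖ := by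
  rw [eval_star, eval_self p z, norm_mul, norm_mul]
  exact mul_le_mul_of_nonneg_left (prod_le hz _) (norm_nonneg _)

theorem star_eq {y : ℝ} {z : ℂ} (hz : z.im = y) (p : ℂ[X]) : ‖(star y p).eval z‖ = ‖p.eval z‖ := by
  rw [eval_star, eval_self p z, norm_mul, norm_mul, prod_eq hz]

theorem star_root {y : ℝ} {z : ℂ} {p : ℂ[X]} (hp : p ≠ 0) (hz : y < z.im) : (star y p).eval z ≠ 0 := by
  rw [eval_star]
  apply mul_ne_zero (leadingCoeff_ne_zero.2 hp)
  intro h
  rw [Multiset.prod_eq_zero_iff, Multiset.mem_map] at h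
  obtain ⟨w, -, hw⟩ := h
  have := fold_im y w
  rw [sub_eq_zero.1 hw] at hz
  linarith

theorem star_natDegree (y : ℝ) {p : ℂ[X]} (hp : p ≠ 0) : (star y p).natDegree = p.natDegree := by
  unfold Pool.Agent.J4H34.DN.star
  rw [natDegree_C_mul (leadingCoeff_ne_zero.2 hp)]
  have : (p.roots.map (fun w => X - C (fold y w))) = ((p.roots.map (fold y)).map (fun a => X - C a)) := by
    rw [Multiset.map_map]; rfl
  rw [this, natDegree_multiset_prod_X_sub_C_eq_card, Multiset.card_map]
  exact (IsAlgClosed.splits p).natDegree_eq_card_roots.symm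

theorem star_lead (y : ℝ) (p : ℂ[X]) : (star y p).leadingCoeff = p.leadingCoeff := by
  unfold Pool.Agent.J4H34.DN.star
  rw [leadingCoeff_mul, leadingCoeff_C]
  have : (p.roots.map (fun w => X - C (fold y w))) = ((p.roots.map (fold y)).map (fun a => X - C a)) := by
    rw [Multiset.map_map]; rfl
  rw [this, (monic_multiset_prod_of_monic _ _ (fun a _ => monic_X_sub_C a)).leadingCoeff, mul_one]

/-- Gauss-Lucas for the half plane -/
theorem gl {P : ℂ[X]} {y : ℝ} (h0 : derivative P ≠ 0) (h : ∀ w, P.eval w = 0 → w.im ≤ y) :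
    ∀ w, (derivative P).eval w = 0 → w.im ≤ y := by
  intro w hw
  have hP : 0 < P.degree := by
    by_contra hd
    rw [not_lt] at hd
    rw [eq_C_of_degree_le_zero hd, derivative_C] at h0
    exact h0 rfl
  have hP0 : P ≠ 0 := by rintro rfl; simp at hP
  have h1 := rootSet_derivative_subset_convexHull_rootSet hP (by
    rw [mem_rootSet]
    exact ⟨h0, by simpa using hw⟩ : w ∈ P.derivative.rootSet ℂ)
  have h2 : convexHull ℝ (P.rootSet ℂ) ⊆ {z : ℂ | z.im ≤ y} := by
    apply convexHull_min
    · intro u hu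
      rw [mem_rootSet] at hu
      exact h u (by simpa using hu.2)
    · exact convex_halfSpace_im_le y
  exact h2 h1

theorem gln {P : ℂ[X]} {y : ℝ} (n : ℕ) (h0 : derivative^[n] P ≠ 0) (h : ∀ w, P.eval w = 0 → w.im ≤ y) :
    ∀ w, (derivative^[n] P).eval w = 0 → w.im ≤ y := by
  induction n with
  | zero => exact h
  | succ n ih =>
    rw [Function.iterate_succ_apply'] at h0 ⊢
    apply gl h0
    apply ih
    intro h1
    rw [h1, derivative_zero] at h0
    exact h0 rfl

theorem der_ne {P : ℂ[X]} {n d : ℕ} (hn : n ≤ d) (h : P.coeff d ≠ 0) : derivative^[n] P ≠ 0 := by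
  intro h0
  have h1 := Polynomial.coeff_iterate_derivative (p := P) (k := n) (d - n)
  rw [h0, coeff_zero, Nat.sub_add_cancel hn] at h1
  rw [eq_comm, nsmul_eq_mul, mul_eq_zero] at h1
  rcases h1 with h1 | h1
  · rw [Nat.cast_eq_zero, Nat.descFactorial_eq_zero_iff_lt] at h1
    omega
  · exact h h1

/-- above the line `|p^(n)| ≤ |(p*)^(n)|` -/
theorem step2 {p : ℂ[X]} {y : ℝ} {n : ℕ} (hp : p ≠ 0) (hn : n ≤ p.natDegree) {z : ℂ} (hz : y < z.im) :
    ‖(derivative^[n] p).eval z‖ ≤ ‖(derivative^[n] (star y p)).eval z‖ := by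
  by_contra hlt
  rw [not_le] at hlt
  obtain ⟨a, ha⟩ : ∃ a, a = (derivative^[n] p).eval z := ⟨_, rfl⟩
  obtain ⟨b, hb⟩ : ∃ b, b = (derivative^[n] (star y p)).eval z := ⟨_, rfl⟩
  rw [← ha, ← hb] at hlt
  have ha0 : a ≠ 0 := by
    rintro rfl
    rw [norm_zero] at hlt
    exact absurd hlt (not_lt.2 (norm_nonneg _))
  have hab : b - a ≠ 0 := by
    intro h
    rw [sub_eq_zero] at h
    rw [h] at hlt
    exact lt_irrefl _ hlt
  have hder : derivative^[n] (C b * p - C a * star y p) = C b * derivative^[n] p - C a * derivative^[n] (star y p) := by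
    rw [iterate_derivative_sub, iterate_derivative_C_mul, iterate_derivative_C_mul]
  have hne : derivative^[n] (C b * p - C a * star y p) ≠ 0 := by
    apply der_ne hn
    rw [coeff_sub, coeff_C_mul, coeff_C_mul]
    have e : (star y p).coeff p.natDegree = p.leadingCoeff := by
      rw [← star_lead y p, leadingCoeff, star_natDegree y hp]
    rw [e, coeff_natDegree, ← sub_mul]
    exact mul_ne_zero hab (leadingCoeff_ne_zero.2 hp)
  have h1 := gln (y := y) n hne (by
    intro w hw
    by_contra hwy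
    rw [not_le] at hwy
    rw [eval_sub, eval_mul, eval_mul, eval_C, eval_C, sub_eq_zero] at hw
    have h2 := congrArg norm hw
    rw [norm_mul, norm_mul] at h2
    have h3 := star_ge hwy.le p
    have h4 : 0 < ‖(star y p).eval w‖ := norm_pos_iff.2 (star_root hp hwy)
    have h5 : ‖b‖ * ‖p.eval w‖ ≤ ‖b‖ * ‖(star y p).eval w‖ := mul_le_mul_of_nonneg_left h3 (norm_nonneg _)
    have h6 : ‖b‖ * ‖(star y p).eval w‖ < ‖a‖ * ‖(star y p).eval w‖ := mul_lt_mul_of_pos_right hlt h4
    linarith) z (by
      rw [hder, eval_sub, eval_mul, eval_mul, eval_C, eval_C, ← ha, ← hb]; ring)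
  linarith

theorem step2' {p : ℂ[X]} {y : ℝ} {n : ℕ} (hp : p ≠ 0) (hn : n ≤ p.natDegree) {z : ℂ} (hz : y ≤ z.im) :
    ‖(derivative^[n] p).eval z‖ ≤ ‖(derivative^[n] (star y p)).eval z‖ := by
  have hc : IsClosed {z : ℂ | ‖(derivative^[n] p).eval z‖ ≤ ‖(derivative^[n] (star y p)).eval z‖} :=
    isClosed_le (Polynomial.continuous _).norm (Polynomial.continuous _).norm
  have h1 : {z : ℂ | y < z.im} ⊆ {z : ℂ | ‖(derivative^[n] p).eval z‖ ≤ ‖(derivative^[n] (star y p)).eval z‖} :=
    fun u hu => step2 hp hn hu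
  have h2 := closure_minimal h1 hc
  rw [Complex.closure_setOfPred_lt_im] at h2
  exact h2 hz

/-- going up -/
theorem up_le {Q : ℂ[X]} {y : ℝ} (h : ∀ w, Q.eval w = 0 → w.im ≤ y) {z : ℂ} (hz : y ≤ z.im) {ε : ℝ} (hε : 0 ≤ ε) :
    ‖Q.eval z‖ ≤ ‖Q.eval (z + ε * I)‖ := by
  rcases eq_or_ne Q 0 with h0 | h0
  · rw [h0]; simp
  rw [eval_self Q z, eval_self Q (z + ε * I), norm_mul, norm_mul]
  apply mul_le_mul_of_nonneg_left _ (norm_nonneg _)
  have key : ∀ m : Multiset ℂ, (∀ w ∈ m, w.im ≤ y) → ‖(m.map (fun w => z - w)).prod‖ ≤ ‖(m.map (fun w => z + ε * I - w)).prod‖ := by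
    intro m
    induction m using Multiset.induction_on with
    | empty => intro _; simp
    | cons a m ih =>
      intro hm
      rw [Multiset.map_cons, Multiset.map_cons, Multiset.prod_cons, Multiset.prod_cons, norm_mul, norm_mul]
      apply mul_le_mul _ (ih (fun w hw => hm w (Multiset.mem_cons_of_mem hw))) (norm_nonneg _) (norm_nonneg _)
      have ha := hm a (Multiset.mem_cons_self a m)
      rw [← sq_le_sq₀ (norm_nonneg _) (norm_nonneg _), ← Complex.normSq_eq_norm_sq, ← Complex.normSq_eq_norm_sq,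
        Complex.normSq_apply, Complex.normSq_apply]
      have e1 : (z + ε * I - a).re = z.re - a.re := by simp
      have e2 : (z + ε * I - a).im = z.im + ε - a.im := by simp
      rw [e1, e2, Complex.sub_re, Complex.sub_im]
      nlinarith [mul_nonneg hε (by linarith : 0 ≤ z.im - a.im)]
  apply key
  intro w hw
  rw [mem_roots h0] at hw
  exact h w hw

theorem ratio {P Q : ℂ[X]} (hd : P.natDegree = Q.natDegree) (hl : P.leadingCoeff = Q.leadingCoeff) (hQ : Q ≠ 0) :
    Tendsto (fun z => P.eval z / Q.eval z) (Bornology.cobounded ℂ) (𝓝 1) := by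
  have key : ∀ (R : ℂ[X]) (z : ℂ), z ≠ 0 → R.eval z = R.reverse.eval z⁻¹ * z ^ R.natDegree := by
    intro R z hz
    let _ := invertibleOfNonzero hz
    have := eval₂_reverse_mul_pow (RingHom.id ℂ) z R
    rw [invOf_eq_inv] at this
    rw [← eval₂_id, ← this, eval₂_id]
  have h1 : Tendsto (fun z : ℂ => P.reverse.eval z⁻¹ / Q.reverse.eval z⁻¹) (Bornology.cobounded ℂ) (𝓝 1) := by
    have hi : Tendsto (fun z : ℂ => z⁻¹) (Bornology.cobounded ℂ) (𝓝 0) := tendsto_inv₀_cobounded
    have hP : Tendsto (fun z : ℂ => P.reverse.eval z⁻¹) (Bornology.cobounded ℂ) (𝓝 P.leadingCoeff) := by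
      have := (P.reverse.continuous.tendsto 0).comp hi
      rwa [← coeff_zero_eq_eval_zero, coeff_zero_reverse] at this
    have hQ' : Tendsto (fun z : ℂ => Q.reverse.eval z⁻¹) (Bornology.cobounded ℂ) (𝓝 Q.leadingCoeff) := by
      have := (Q.reverse.continuous.tendsto 0).comp hi
      rwa [← coeff_zero_eq_eval_zero, coeff_zero_reverse] at this
    have := hP.div hQ' (leadingCoeff_ne_zero.2 hQ)
    rwa [hl, div_self (leadingCoeff_ne_zero.2 hQ)] at this
  refine h1.congr' ?_
  have h2 : ∀ᶠ z : ℂ in Bornology.cobounded ℂ, z ≠ 0 := by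
    have := (tendsto_norm_cobounded_atTop (E := ℂ)).eventually_gt_atTop 0
    filter_upwards [this] with z hz
    exact norm_pos_iff.1 hz
  filter_upwards [h2] with z hz
  rw [key P z hz, key Q z hz, hd, mul_div_mul_right _ _ (pow_ne_zero _ hz)]

/-- the maximum principle in the half plane -/
theorem maxp {P Q : ℂ[X]} {y : ℝ} (hd : P.natDegree = Q.natDegree) (hl : P.leadingCoeff = Q.leadingCoeff) (hQ : Q ≠ 0)
    (h : ∀ w, Q.eval w = 0 → w.im ≤ y) (hb : ∀ z : ℂ, z.im = y → ‖P.eval z‖ ≤ ‖Q.eval z‖) {z : ℂ} (hz : y ≤ z.im) :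
    ‖P.eval z‖ ≤ ‖Q.eval z‖ := by
  rcases hz.eq_or_lt with hzy | hzy
  · exact hb z hzy.symm
  -- first with a shift
  have main : ∀ ε : ℝ, 0 < ε → ‖P.eval z‖ ≤ ‖Q.eval (z + ε * I)‖ := by
    intro ε hε
    have hne : ∀ u : ℂ, y ≤ u.im → Q.eval (u + ε * I) ≠ 0 := by
      intro u hu h0
      have := h _ h0
      have e : (u + ε * I).im = u.im + ε := by simp
      rw [e] at this
      linarith
    have key : ∀ η : ℝ, 0 < η → ‖P.eval z / Q.eval (z + ε * I)‖ ≤ 1 + η := by
      intro η hη
      have hr := ratio hd hl hQ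
      have hr' : ∀ᶠ u : ℂ in Bornology.cobounded ℂ, ‖P.eval u‖ ≤ (1 + η) * ‖Q.eval u‖ := by
        have h1 := hr.norm.eventually_lt_const (show ‖(1 : ℂ)‖ < 1 + η by rw [norm_one]; linarith)
        have h2 : ∀ᶠ u : ℂ in Bornology.cobounded ℂ, y < ‖u‖ := (tendsto_norm_cobounded_atTop (E := ℂ)).eventually_gt_atTop y
        have h3 : ∀ᶠ u : ℂ in Bornology.cobounded ℂ, Q.eval u ≠ 0 := by
          have h4 := hr.eventually_ne (show (1 : ℂ) ≠ 0 from one_ne_zero)
          filter_upwards [h4] with u hu h0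
          rw [h0, div_zero] at hu
          exact hu rfl
        filter_upwards [h1, h3] with u hu hu3
        rw [norm_div, div_lt_iff₀ (norm_pos_iff.2 hu3)] at hu
        exact hu.le
      rw [← comap_norm_atTop, eventually_comap, eventually_atTop] at hr'
      obtain ⟨R₀, hR₀⟩ := hr'
      obtain ⟨R, hR⟩ : ∃ R, R = max (max R₀ 1) (‖z‖ + 1) := ⟨_, rfl⟩
      have hR1 : R₀ ≤ R := by rw [hR]; exact (le_max_left _ _).trans (le_max_left _ _)
      have hR2 : 1 ≤ R := by rw [hR]; exact (le_max_right _ _).trans (le_max_left _ _)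
      have hR3 : ‖z‖ < R := by rw [hR]; exact lt_of_lt_of_le (by linarith) (le_max_right _ _)
      have hU : Bornology.IsBounded ({u : ℂ | y < u.im} ∩ Metric.ball 0 R) := Metric.isBounded_ball.subset Set.inter_subset_right
      have hcl : closure ({u : ℂ | y < u.im} ∩ Metric.ball 0 R) ⊆ {u : ℂ | y ≤ u.im} := by
        refine (closure_mono Set.inter_subset_left).trans ?_
        rw [Complex.closure_setOfPred_lt_im]
      have hdc : DiffContOnCl ℂ (fun u => P.eval u / Q.eval (u + ε * I)) ({u : ℂ | y < u.im} ∩ Metric.ball 0 R) := by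
        apply DifferentiableOn.diffContOnCl
        intro u hu
        apply DifferentiableAt.differentiableWithinAt
        apply DifferentiableAt.div
        · exact P.differentiableAt
        · exact (Q.differentiable.comp (differentiable_id.add_const _)).differentiableAt
        · exact hne u (hcl hu)
      apply Complex.norm_le_of_forall_mem_frontier_norm_le hU hdc (C := 1 + η)
      · intro u hu
        have hu' := frontier_inter_subset _ _ hu
        have huy : y ≤ u.im := hcl (frontier_subset_closure hu)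
        have hup := up_le h huy hε.le
        rw [norm_div, div_le_iff₀ (norm_pos_iff.2 (hne u huy))]
        rcases hu' with hu' | hu'
        · have h5 := hu'.1
          rw [Complex.frontier_setOfPred_lt_im] at h5
          have h6 := hb u h5
          have : 0 ≤ η * ‖Q.eval (u + ε * I)‖ := by positivity
          linarith
        · have h5 := hu'.2
          rw [frontier_ball (0 : ℂ) (by linarith : R ≠ 0)] at h5
          rw [mem_sphere_zero_iff_norm] at h5
          have h6 := hR₀ R hR1 u h5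
          have h7 : (1 + η) * ‖Q.eval u‖ ≤ (1 + η) * ‖Q.eval (u + ε * I)‖ := mul_le_mul_of_nonneg_left hup (by linarith)
          linarith
      · exact subset_closure ⟨hzy, by rw [mem_ball_zero_iff]; exact hR3⟩
    have h8 : ‖P.eval z / Q.eval (z + ε * I)‖ ≤ 1 := by
      apply le_of_forall_pos_le_add
      intro η hη
      exact key η hη
    rw [norm_div, div_le_one (norm_pos_iff.2 (hne z hz))] at h8
    exact h8
  have hcont : Tendsto (fun ε : ℝ => ‖Q.eval (z + ε * I)‖) (𝓝[>] 0) (𝓝 ‖Q.eval z‖) := by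
    have h1 : Continuous (fun ε : ℝ => ‖Q.eval (z + ε * I)‖) := by
      apply Continuous.norm
      exact Q.continuous.comp (by fun_prop)
    have h2 := (h1.tendsto 0).mono_left (nhdsWithin_le_nhds (s := Set.Ioi 0))
    simpa using h2
  apply ge_of_tendsto hcont
  filter_upwards [self_mem_nhdsWithin] with ε hε
  exact main ε hε

theorem t_A : S_A := by
  intro p y n z hz
  rcases eq_or_ne p 0 with hp | hp
  · subst hp
    have e : star y (0 : ℂ[X]) = 0 := by unfold Pool.Agent.J4H34.DN.star; simp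
    rw [iterate_derivative_zero, e, iterate_derivative_zero]
  rcases lt_or_ge p.natDegree n with hn | hn
  · rw [iterate_derivative_eq_zero hn]
    have e : star y (0 : ℂ[X]) = 0 := by unfold Pool.Agent.J4H34.DN.star; simp
    rw [e]; simp
  have hP : derivative^[n] p ≠ 0 := der_ne hn (by rw [coeff_natDegree]; exact leadingCoeff_ne_zero.2 hp)
  have hsc : (star y p).coeff p.natDegree = p.leadingCoeff := by
    rw [← star_lead y p, leadingCoeff, star_natDegree y hp]
  have hQ : derivative^[n] (star y p) ≠ 0 := der_ne hn (by rw [hsc]; exact leadingCoeff_ne_zero.2 hp)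
  have nd : ∀ R : ℂ[X], R.natDegree = p.natDegree → R.leadingCoeff = p.leadingCoeff →
      (derivative^[n] R).natDegree = p.natDegree - n ∧
      (derivative^[n] R).leadingCoeff = (p.natDegree.descFactorial n : ℂ) * p.leadingCoeff := by
    intro R hR hRl
    have h1 : (derivative^[n] R).natDegree ≤ p.natDegree - n := by rw [← hR]; exact natDegree_iterate_derivative R n
    have h2 : (derivative^[n] R).coeff (p.natDegree - n) = (p.natDegree.descFactorial n : ℂ) * p.leadingCoeff := by
      rw [coeff_iterate_derivative, Nat.sub_add_cancel hn, nsmul_eq_mul, ← hR, coeff_natDegree, hRl]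
    have h3 : (derivative^[n] R).coeff (p.natDegree - n) ≠ 0 := by
      rw [h2]
      apply mul_ne_zero _ (leadingCoeff_ne_zero.2 hp)
      rw [Nat.cast_ne_zero]
      intro h4
      rw [Nat.descFactorial_eq_zero_iff_lt] at h4
      omega
    have h4 : (derivative^[n] R).natDegree = p.natDegree - n := le_antisymm h1 (le_natDegree_of_ne_zero h3)
    exact ⟨h4, by rw [leadingCoeff, h4, h2]⟩
  obtain ⟨a1, a2⟩ := nd p rfl rfl
  obtain ⟨b1, b2⟩ := nd (star y p) (star_natDegree y hp) (star_lead y p)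
  apply maxp (y := y) _ _ hQ _ _ hz
  · rw [star_natDegree y hP, a1, b1]
  · rw [star_lead, a2, b2]
  · apply gln n hQ
    intro w hw
    by_contra hwy
    rw [not_le] at hwy
    exact star_root hp hwy hw
  · intro u hu
    rw [star_eq hu]
    exact step2' hp hn hu.ge

end Pool.Agent.J4H55.DN
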